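import Pool.Agent.P.MP_6277db_ag.KEW.CycBasicA

/-!
Basic stability properties of multiplicity functions.
-/

noncomputable section

open CategoryTheory Limits AlgebraicGeometry

namespace Pool.Agent.KEW

variable {X W X' W' : Scheme.{0}}

/-- Only finitely many `O`-points over `g` have their generic point in a quasi-finite `Z`. -/
theorem finite_lifts (p : X ⟶ W) [IsSeparated p] {Z : Scheme.{0}} (i : Z ⟶ X)
    [LocallyOfFiniteType i] [LocallyQuasiFinite (i ≫ p)] [QuasiCompact (i ≫ p)]
    (O : Type) [CommRing O] [IsDomain O] [ValuationRing O] [IsAlgClosed (FractionRing O)]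
    (g : Spec (.of O) ⟶ W) :
    {x : Spec (.of O) ⟶ X | x ≫ p = g ∧ x (genPt O) ∈ Set.range i}.Finite :=
  finite_lifts_A p i O g

theorem FinOver.mono {p : X ⟶ W} {S S' : Set X} (h : FinOver p S) (hS : S' ⊆ S) :
    FinOver p S' := by
  obtain ⟨Z, i, hi, hZ⟩ := h
  exact ⟨Z, i, hi, hS.trans hZ⟩

theorem FinOver.empty (p : X ⟶ W) : FinOver p ∅ :=
  ⟨∅, Scheme.emptyTo X, inferInstance, Set.empty_subset _⟩

theorem FinOver.union {p : X ⟶ W} {S S' : Set X} (h : FinOver p S) (h' : FinOver p S') :
    FinOver p (S ∪ S') :=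
  h.union_A h'

theorem FinOver.pull {f : X' ⟶ X} {p' : X' ⟶ W'} {p : X ⟶ W} {g : W' ⟶ W}
    (H : IsPullback f p' p g) {S : Set X} (h : FinOver p S) : FinOver p' (f ⁻¹' S) :=
  FinOver.pull_A H h

theorem FinOver.image (i : X ⟶ X') (p' : X' ⟶ W) {S : Set X} (h : FinOver (i ≫ p') S) :
    FinOver p' (i '' S) :=
  FinOver.image_A i p' h

theorem Specialises.zero (p : X ⟶ W) : Specialises p 0 := by
  intro O _ _ _ _ g y _
  simp

theorem Specialises.neg {p : X ⟶ W} {c : X → ℚ} (h : Specialises p c) : Specialises p (-c) := by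
  intro O _ _ _ _ g y hy
  simp only [Pi.neg_apply, finsum_neg_distrib, h O g y hy]

theorem Specialises.add {p : X ⟶ W} [IsSeparated p] {c c' : X → ℚ} (h : Specialises p c)
    (h' : Specialises p c') (hc : FinOver p (Function.support c))
    (hc' : FinOver p (Function.support c')) : Specialises p (c + c') :=
  h.add_A h' hc hc'

theorem Specialises.pull {f : X' ⟶ X} {p' : X' ⟶ W'} {p : X ⟶ W} {g : W' ⟶ W}
    (H : IsPullback f p' p g) {c : X → ℚ} (h : Specialises p c) : Specialises p' (c ∘ f) :=
  Specialises.pull_A H h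

/-- A point with values in a domain lifts to a closed subscheme that contains the image of the
generic point. -/
theorem CycB_lift (i : X ⟶ X') [IsClosedImmersion i] (O : Type) [CommRing O] [IsDomain O]
    (x : Spec (.of O) ⟶ X') (h : x (genPt O) ∈ Set.range i) :
    ∃ x' : Spec (.of O) ⟶ X, x' ≫ i = x := by
  have h1 : Surjective (pullback.fst x i) := ⟨by
    rw [← Set.range_eq_univ, ← Set.univ_subset_iff,
      ← (genericPoint_spec (Spec (.of O))).mem_closed_set_iff
        (pullback.fst x i).isClosedEmbedding.isClosed_range, genericPoint_eq_bot_of_affine,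
      Scheme.Pullback.range_fst]
    exact h⟩
  have h2 := isIso_of_isClosedImmersion_of_surjective (pullback.fst x i)
  exact ⟨inv (pullback.fst x i) ≫ pullback.snd x i, by
    rw [Category.assoc, ← pullback.condition, IsIso.inv_hom_id_assoc]⟩

theorem CycB_finsum {α β : Type} {f : α → ℚ} {g : β → ℚ} (φ : α → β) (h : Function.Injective φ)
    (h1 : ∀ a, f a = g (φ a)) (h2 : ∀ b, g b ≠ 0 → b ∈ Set.range φ) : ∑ᶠ a, f a = ∑ᶠ b, g b := by
  rw [finsum_congr h1, ← finsum_mem_range h, finsum_mem_def, Set.indicator_eq_self.2 h2]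

theorem Specialises.extend (i : X ⟶ X') [IsClosedImmersion i] (p' : X' ⟶ W) {c : X → ℚ}
    (h : Specialises (i ≫ p') c) : Specialises p' (Function.extend i c 0) := by
  intro O _ _ _ _ g y hy
  have hi : Function.Injective i := i.isClosedEmbedding.injective
  by_cases h0 : y (genPt _) ∈ Set.range i
  · obtain ⟨y', rfl⟩ := CycB_lift i _ y h0
    rw [Scheme.Hom.comp_apply, hi.extend_apply, h O g y' (by rw [← hy, Category.assoc])]
    refine CycB_finsum (fun x => ⟨x.1 ≫ i, by rw [Category.assoc, x.2.1],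
      by rw [← Category.assoc, x.2.2]⟩) (fun x x' e => ?_) (fun x => ?_) fun x hx => ?_
    · exact Subtype.ext ((cancel_mono i).1 (congrArg Subtype.val e))
    · exact (hi.extend_apply c 0 _).symm.trans
        (congrArg _ (Scheme.Hom.comp_apply x.1 i (genPt O)).symm)
    · obtain ⟨x', e⟩ := CycB_lift i O x.1 (by
        by_contra h1
        exact hx (Function.extend_apply' c (0 : X' → ℚ) _ h1))
      exact ⟨⟨x', by rw [← Category.assoc, e, x.2.1],
        (cancel_mono i).1 (by rw [Category.assoc, e, x.2.2])⟩, Subtype.ext e⟩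
  · rw [Function.extend_apply' c (0 : X' → ℚ) _ h0]
    refine (finsum_eq_zero_of_forall_eq_zero fun x =>
      Function.extend_apply' c (0 : X' → ℚ) _ fun h1 => ?_).symm
    obtain ⟨x', e⟩ := CycB_lift i O x.1 h1
    refine h0 ⟨(resPt O ≫ x') (genPt _), ?_⟩
    rw [← Scheme.Hom.comp_apply, Category.assoc, e, x.2.2]

/-- Extension by zero along an immersion commutes with base change. -/
theorem extend_pull {Y Y' : Scheme.{0}} {f' : Y' ⟶ Y} {i' : Y' ⟶ X'} {i : Y ⟶ X} {f : X' ⟶ X}
    (H : IsPullback f' i' i f) (hi : Function.Injective i) (hi' : Function.Injective i')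
    (c : Y → ℚ) : Function.extend i c 0 ∘ f = Function.extend i' (c ∘ f') 0 := by
  funext x
  by_cases h : ∃ y, i' y = x
  · obtain ⟨y, rfl⟩ := h
    rw [Function.comp_apply, ← Scheme.Hom.comp_apply, ← H.w, Scheme.Hom.comp_apply,
      hi.extend_apply, hi'.extend_apply, Function.comp_apply]
  · rw [Function.comp_apply, Function.extend_apply' _ _ _ h, Function.extend_apply' _ _ _ ?_]
    · rfl
    · rintro ⟨y, hy⟩
      obtain ⟨z, -, hz⟩ := Scheme.exists_preimage_of_isPullback H y x hy
      exact h ⟨z, hz⟩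

theorem support_extend_subset {α β : Type} (i : α → β) (c : α → ℚ) :
    Function.support (Function.extend i c 0) ⊆ i '' Function.support c := by
  classical
  intro y hy
  by_cases h : ∃ x, i x = y
  · refine ⟨h.choose, ?_, h.choose_spec⟩
    rw [Function.mem_support, Function.extend_def, dif_pos h] at hy
    exact hy
  · simp [h] at hy

/-- The zero section of affine space. -/
def zeroSec (ι : Type) (W : Scheme.{0}) : W ⟶ 𝔸(ι; W) :=
  AffineSpace.homOfVector (𝟙 W) (fun _ => 0)

/-- The closed immersion `x ↦ (x, a)` of affine spaces over `W`, for a function `a` on `W`; the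
new coordinate is the one that `e` sends to `none`. -/
def graph {ι ι' : Type} (e : ι' ≃ Option ι) (W : Scheme.{0}) (a : Γ(W, ⊤)) :
    𝔸(ι; W) ⟶ 𝔸(ι'; W) :=
  AffineSpace.homOfVector (𝔸(ι; W) ↘ W)
    (fun i => (e i).elim ((𝔸(ι; W) ↘ W).appTop a) (AffineSpace.coord W))

theorem graph_over {ι ι' : Type} (e : ι' ≃ Option ι) (W : Scheme.{0}) (a : Γ(W, ⊤)) :
    graph e W a ≫ 𝔸(ι'; W) ↘ W = 𝔸(ι; W) ↘ W :=
  AffineSpace.homOfVector_over _ _

theorem CycB_coord {ι ι' : Type} (e : ι' ≃ Option ι) (W : Scheme.{0}) (a : Γ(W, ⊤)) (i : ι') :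
    (graph e W a).appTop (AffineSpace.coord W i) =
      (e i).elim ((𝔸(ι; W) ↘ W).appTop a) (AffineSpace.coord W) :=
  AffineSpace.homOfVector_appTop_coord _ _ _

theorem CycB_section {ι ι' : Type} (e : ι' ≃ Option ι) (W : Scheme.{0}) (a : Γ(W, ⊤)) :
    graph e W a ≫ AffineSpace.reindex (fun j => e.symm (some j)) W = 𝟙 _ := by
  refine AffineSpace.hom_ext ?_ fun j => ?_
  · rw [Category.assoc, AffineSpace.reindex_over, graph_over, Category.id_comp]
  · rw [Scheme.Hom.comp_appTop, CommRingCat.comp_apply, AffineSpace.reindex_appTop_coord,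
      CycB_coord, Equiv.apply_symm_apply, Scheme.Hom.id_appTop]
    rfl

instance graph_closed {ι ι' : Type} (e : ι' ≃ Option ι) (W : Scheme.{0}) (a : Γ(W, ⊤)) :
    IsClosedImmersion (graph e W a) := by
  have h1 : IsSeparated (AffineSpace.reindex (fun j => e.symm (some j)) W ≫ 𝔸(ι; W) ↘ W) := by
    rw [AffineSpace.reindex_over]
    infer_instance
  have h2 := IsSeparated.of_comp (AffineSpace.reindex (fun j => e.symm (some j)) W) (𝔸(ι; W) ↘ W)
  have h3 : IsClosedImmersion (graph e W a ≫ AffineSpace.reindex (fun j => e.symm (some j)) W) := by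
    rw [CycB_section]
    infer_instance
  exact IsClosedImmersion.of_comp _ (AffineSpace.reindex (fun j => e.symm (some j)) W)

theorem graph_isPullback {ι ι' : Type} (e : ι' ≃ Option ι) (f : W' ⟶ W) (a : Γ(W, ⊤)) :
    IsPullback (AffineSpace.map ι f) (graph e W' (f.appTop a)) (graph e W a)
      (AffineSpace.map ι' f) := by
  refine IsPullback.of_bot ?_ ?_ (AffineSpace.isPullback_map f)
  · rw [graph_over, graph_over]
    exact AffineSpace.isPullback_map f
  · refine AffineSpace.hom_ext ?_ fun j => ?_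
    · rw [Category.assoc, graph_over, Category.assoc, AffineSpace.map_over, AffineSpace.map_over,
        ← Category.assoc, graph_over]
    · rw [Scheme.Hom.comp_appTop, Scheme.Hom.comp_appTop, CommRingCat.comp_apply,
        CommRingCat.comp_apply, AffineSpace.map_appTop_coord, CycB_coord, CycB_coord]
      cases e j with
      | none =>
        rw [Option.elim_none, Option.elim_none, ← CommRingCat.comp_apply,
          ← CommRingCat.comp_apply, ← Scheme.Hom.comp_appTop, ← Scheme.Hom.comp_appTop,
          AffineSpace.map_over]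
      | some k => exact AffineSpace.map_appTop_coord f k

theorem CycB_zero_over (ι : Type) (W : Scheme.{0}) : zeroSec ι W ≫ 𝔸(ι; W) ↘ W = 𝟙 W :=
  AffineSpace.homOfVector_over _ _

theorem CycB_zero_coord {ι : Type} (W : Scheme.{0}) (j : ι) :
    (zeroSec ι W).appTop (AffineSpace.coord W j) = 0 :=
  AffineSpace.homOfVector_appTop_coord _ _ _

theorem map_zeroSec (ι : Type) (f : W' ⟶ W) :
    Set.MapsTo (AffineSpace.map ι f) (Set.range (zeroSec ι W')) (Set.range (zeroSec ι W)) := by
  have h : zeroSec ι W' ≫ AffineSpace.map ι f = f ≫ zeroSec ι W := by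
    refine AffineSpace.hom_ext ?_ fun j => ?_
    · rw [Category.assoc, AffineSpace.map_over, ← Category.assoc, CycB_zero_over, Category.assoc,
        CycB_zero_over, Category.id_comp, Category.comp_id]
    · rw [Scheme.Hom.comp_appTop, Scheme.Hom.comp_appTop, CommRingCat.comp_apply,
        CommRingCat.comp_apply, AffineSpace.map_appTop_coord, CycB_zero_coord, CycB_zero_coord,
        map_zero]
  rintro _ ⟨w, rfl⟩
  exact ⟨f w, by rw [← Scheme.Hom.comp_apply, ← h, Scheme.Hom.comp_apply]⟩

theorem graph_mem_zeroSec {ι ι' : Type} (e : ι' ≃ Option ι) (W : Scheme.{0}) (a : Γ(W, ⊤))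
    (x : 𝔸(ι; W)) (h : graph e W a x ∈ Set.range (zeroSec ι' W)) :
    x ∈ Set.range (zeroSec ι W) ∧ ¬ IsUnit a := by
  obtain ⟨w, hw⟩ := h
  refine ⟨⟨w, ?_⟩, fun ha => ?_⟩
  · have h1 : zeroSec ι' W ≫ AffineSpace.reindex (fun j => e.symm (some j)) W = zeroSec ι W := by
      refine AffineSpace.hom_ext ?_ fun j => ?_
      · rw [Category.assoc, AffineSpace.reindex_over, CycB_zero_over, CycB_zero_over]
      · rw [Scheme.Hom.comp_appTop, CommRingCat.comp_apply, AffineSpace.reindex_appTop_coord,
          CycB_zero_coord, CycB_zero_coord]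
    rw [← h1, Scheme.Hom.comp_apply, hw, ← Scheme.Hom.comp_apply, CycB_section]
    rfl
  · have h1 : x ∈ graph e W a ⁻¹ᵁ 𝔸(ι'; W).basicOpen (AffineSpace.coord W (e.symm none)) := by
      rw [Scheme.preimage_basicOpen_top, CycB_coord, Equiv.apply_symm_apply, Option.elim_none,
        Scheme.basicOpen_of_isUnit _ (ha.map _)]
      trivial
    have h2 : w ∈ zeroSec ι' W ⁻¹ᵁ 𝔸(ι'; W).basicOpen (AffineSpace.coord W (e.symm none)) := by
      rw [Scheme.Hom.mem_preimage, hw]
      exact h1
    rw [Scheme.preimage_basicOpen_top, CycB_zero_coord, Scheme.basicOpen_zero] at h2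
    exact h2

end Pool.Agent.KEW
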