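import Pool.Agent.P.MP_6277db_ag.KEW.DefsB

/-!
Finiteness of lifts, and stability of `FinOver` and `Specialises`.
-/

noncomputable section

open CategoryTheory Limits AlgebraicGeometry

namespace Pool.Agent.KEW

variable {X W X' W' : Scheme.{0}}

/-- A geometric point in the image of a morphism locally of finite type lifts. -/
theorem CycA_lift {K : Type} [Field K] [IsAlgClosed K] {Z : Scheme.{0}} (i : Z ⟶ X)
    [LocallyOfFiniteType i] (x : Spec (.of K) ⟶ X) (a : Spec (.of K))
    (hx : x a ∈ Set.range i) : ∃ z : Spec (.of K) ⟶ Z, z ≫ i = x := by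
  obtain ⟨z, hz⟩ := hx
  obtain ⟨t, -, -⟩ := Scheme.Pullback.exists_preimage_pullback (f := i) (g := x) z a hz
  have : JacobsonSpace ↥(pullback i x) := LocallyOfFiniteType.jacobsonSpace (pullback.snd i x)
  obtain ⟨s, -, hs⟩ := nonempty_inter_closedPoints (X := ↥(pullback i x)) (Z := Set.univ)
    ⟨t, trivial⟩ isOpen_univ.isLocallyClosed
  replace hs : IsClosed {s} := hs
  refine ⟨pointOfClosedPoint (pullback.snd i x) s hs ≫ pullback.fst i x, ?_⟩
  rw [Category.assoc, pullback.condition, pointOfClosedPoint_comp_assoc]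

/-- A quasi-finite morphism has finitely many geometric points over a given one. -/
theorem CycA_finite {K : Type} [Field K] [IsAlgClosed K] {Z : Scheme.{0}} (q : Z ⟶ W)
    [LocallyQuasiFinite q] [QuasiCompact q] (w : Spec (.of K) ⟶ W) :
    {z : Spec (.of K) ⟶ Z | z ≫ q = w}.Finite := by
  have : IsFinite (pullback.snd q w) := IsFinite.of_locallyQuasiFinite _
  have hf : (Set.univ : Set ↥(pullback q w)).Finite := by
    have := (pullback.snd q w).finite_preimage (s := Set.univ) Set.finite_univ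
    simpa using this
  have : Finite ↥(pullback q w) := Set.finite_univ_iff.1 hf
  have : Finite {s : Spec (.of K) ⟶ pullback q w // s ≫ pullback.snd q w = 𝟙 _} :=
    Finite.of_equiv _ (pointEquivClosedPoint (pullback.snd q w)).symm
  refine (Set.finite_range fun s : {s : Spec (.of K) ⟶ pullback q w //
    s ≫ pullback.snd q w = 𝟙 _} => s.1 ≫ pullback.fst q w).subset fun z hz => ?_
  exact ⟨⟨pullback.lift z (𝟙 _) (by simpa using hz), pullback.lift_snd _ _ _⟩,
    pullback.lift_fst _ _ _⟩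

/-- Only finitely many `O`-points over `g` have their generic point in a quasi-finite `Z`. -/
theorem finite_lifts_A (p : X ⟶ W) [IsSeparated p] {Z : Scheme.{0}} (i : Z ⟶ X)
    [LocallyOfFiniteType i] [LocallyQuasiFinite (i ≫ p)] [QuasiCompact (i ≫ p)]
    (O : Type) [CommRing O] [IsDomain O] [ValuationRing O] [IsAlgClosed (FractionRing O)]
    (g : Spec (.of O) ⟶ W) :
    {x : Spec (.of O) ⟶ X | x ≫ p = g ∧ x (genPt O) ∈ Set.range i}.Finite := by
  let j : Spec (.of (FractionRing O)) ⟶ Spec (.of O) :=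
    Spec.map (CommRingCat.ofHom (algebraMap O (FractionRing O)))
  have hj : j (genPt (FractionRing O)) = genPt O := by
    refine PrimeSpectrum.ext ?_
    change Ideal.comap (algebraMap O (FractionRing O)) ⊥ = ⊥
    exact Ideal.comap_bot_of_injective _ (IsFractionRing.injective O (FractionRing O))
  have : IsDominant j := by
    refine ⟨?_⟩
    change DenseRange (PrimeSpectrum.comap (algebraMap O (FractionRing O)))
    rw [PrimeSpectrum.denseRange_comap_iff_ker_le_nilRadical,
      (RingHom.injective_iff_ker_eq_bot _).1 (IsFractionRing.injective O (FractionRing O))]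
    exact bot_le
  refine Set.Finite.of_finite_image (f := fun x => j ≫ x) ?_ fun x hx x' hx' e =>
    ext_of_isDominant_of_isSeparated p (hx.1.trans hx'.1.symm) j e
  refine ((CycA_finite (i ≫ p) (j ≫ g)).image fun z => z ≫ i).subset ?_
  rintro _ ⟨x, hx, rfl⟩
  obtain ⟨z, hz⟩ := CycA_lift i (j ≫ x) (genPt _) (by
    rw [Scheme.Hom.comp_apply, hj]; exact hx.2)
  exact ⟨z, by rw [Set.mem_ofPred_eq, ← Category.assoc, hz, Category.assoc, hx.1], hz⟩

theorem FinOver.union_A {p : X ⟶ W} {S S' : Set X} (h : FinOver p S) (h' : FinOver p S') :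
    FinOver p (S ∪ S') := by
  obtain ⟨Z, i, hi, hZ⟩ := h
  obtain ⟨Z', i', hi', hZ'⟩ := h'
  refine ⟨Z ⨿ Z', coprod.desc i i', ?_, ?_⟩
  · rw [coprod.desc_comp]
    infer_instance
  · rintro x (hx | hx)
    · obtain ⟨z, rfl⟩ := hZ hx
      exact ⟨(coprod.inl : Z ⟶ Z ⨿ Z') z, by rw [← Scheme.Hom.comp_apply, coprod.inl_desc]⟩
    · obtain ⟨z, rfl⟩ := hZ' hx
      exact ⟨(coprod.inr : Z' ⟶ Z ⨿ Z') z, by rw [← Scheme.Hom.comp_apply, coprod.inr_desc]⟩

theorem FinOver.pull_A {f : X' ⟶ X} {p' : X' ⟶ W'} {p : X ⟶ W} {g : W' ⟶ W}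
    (H : IsPullback f p' p g) {S : Set X} (h : FinOver p S) : FinOver p' (f ⁻¹' S) := by
  obtain ⟨Z, i, hi, hZ⟩ := h
  refine ⟨pullback i f, pullback.snd i f, ?_, ?_⟩
  · exact MorphismProperty.of_isPullback (P := @IsFinite)
      ((IsPullback.of_hasPullback i f).paste_vert H) hi
  · rw [Scheme.Pullback.range_snd]
    exact Set.preimage_mono hZ

theorem FinOver.image_A (i : X ⟶ X') (p' : X' ⟶ W) {S : Set X} (h : FinOver (i ≫ p') S) :
    FinOver p' (i '' S) := by
  obtain ⟨Z, j, hj, hZ⟩ := h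
  refine ⟨Z, j ≫ i, by rwa [Category.assoc], ?_⟩
  rintro _ ⟨x, hx, rfl⟩
  obtain ⟨z, rfl⟩ := hZ hx
  exact ⟨z, Scheme.Hom.comp_apply _ _ _⟩

theorem CycA_support {p : X ⟶ W} [IsSeparated p] {c : X → ℚ}
    (hc : FinOver p (Function.support c))
    (O : Type) [CommRing O] [IsDomain O] [ValuationRing O] [IsAlgClosed (FractionRing O)]
    (g : Spec (.of O) ⟶ W) (y : Spec (.of (IsLocalRing.ResidueField O)) ⟶ X) :
    (Function.support fun x : {x : Spec (.of O) ⟶ X // x ≫ p = g ∧ resPt O ≫ x = y} =>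
      c (x.1 (genPt O))).Finite := by
  obtain ⟨Z, i, hi, hZ⟩ := hc
  have : LocallyOfFiniteType i := locallyOfFiniteType_of_comp i p
  exact ((finite_lifts_A p i O g).preimage Subtype.val_injective.injOn).subset
    fun x hx => ⟨x.2.1, hZ hx⟩

theorem Specialises.add_A {p : X ⟶ W} [IsSeparated p] {c c' : X → ℚ} (h : Specialises p c)
    (h' : Specialises p c') (hc : FinOver p (Function.support c))
    (hc' : FinOver p (Function.support c')) : Specialises p (c + c') := by
  intro O _ _ _ _ g y hy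
  simp only [Pi.add_apply]
  rw [finsum_add_distrib (CycA_support hc O g y) (CycA_support hc' O g y), h O g y hy,
    h' O g y hy]

theorem Specialises.pull_A {f : X' ⟶ X} {p' : X' ⟶ W'} {p : X ⟶ W} {g : W' ⟶ W}
    (H : IsPullback f p' p g) {c : X → ℚ} (h : Specialises p c) : Specialises p' (c ∘ f) := by
  intro O _ _ _ _ w y hy
  have e := h O (w ≫ g) (y ≫ f) (by rw [Category.assoc, H.w, ← Category.assoc, hy, Category.assoc])
  rw [Scheme.Hom.comp_apply] at e
  rw [Function.comp_apply, e]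
  symm
  refine finsum_eq_of_bijective (fun x => ⟨x.1 ≫ f, ?_, ?_⟩) ⟨fun x x' hx => ?_, fun x => ?_⟩
    fun x => ?_
  · rw [Category.assoc, H.w, ← Category.assoc, x.2.1]
  · rw [← Category.assoc, x.2.2]
  · exact Subtype.ext (H.hom_ext (congrArg Subtype.val hx) (x.2.1.trans x'.2.1.symm))
  · refine ⟨⟨H.lift x.1 w x.2.1, H.lift_snd _ _ _, H.hom_ext ?_ ?_⟩, Subtype.ext (H.lift_fst _ _ _)⟩
    · rw [Category.assoc, H.lift_fst, x.2.2]
    · rw [Category.assoc, H.lift_snd, hy]
  · rw [Function.comp_apply, Scheme.Hom.comp_apply]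

end Pool.Agent.KEW
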