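import Pool.Agent.P.MP_6277db_ag.KEW.DefsA0

/-!
The `A^1`-Nisnevich local equivalences on a category over schemes.
-/

noncomputable section

open CategoryTheory Limits AlgebraicGeometry MonoidalCategory

namespace Pool.Agent.KEW

variable {C : Type 1} [Category.{0} C] {L : Type 1} [CommRing L]

variable (L) in
/-- The presheaf `U ↦ L[O(U)] / L[S(U)]` on schemes, for a family `S` of subsets of rings stable
under ring maps. -/
def funQuot (S : ∀ R : CommRingCat.{0}, Set R)
    (hS : ∀ {R R' : CommRingCat.{0}} (f : R ⟶ R'), Set.MapsTo f (S R) (S R')) :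
    PSh Scheme.{0} L where
  obj U := ModuleCat.of L ((Γ(U.unop, ⊤) →₀ L) ⧸ Finsupp.supported L L (S Γ(U.unop, ⊤)))
  map f := ModuleCat.ofHom (Submodule.mapQ _ _ (Finsupp.lmapDomain L L f.unop.appTop)
    ((Finsupp.supported_mono (hS f.unop.appTop)).trans
      (Finsupp.supported_comap_lmapDomain L L _ _)))
  map_id U := by
    ext x
    simp
  map_comp f g := by
    ext x
    simp

variable (L) in
/-- The reduced affine line `L[A^1] / L[0]`. -/
def line : PSh Scheme.{0} L := funQuot L (fun _ => {0}) (fun f => by simp [Set.MapsTo])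

variable (L) in
/-- The Tate object `T = L[A^1] / L[A^1 - 0]`. -/
def tate : PSh Scheme.{0} L :=
  funQuot L (fun _ => {a | IsUnit a}) (fun f _ ha => IsUnit.map f.hom ha)

variable (u : C ⥤ Scheme.{0})

/-- Generators of the class of `A^1`-Nisnevich acyclic complexes: complexes whose homology is
Nisnevich locally zero and complexes `K ⊗ L[A^1] / L[0]`. -/
def NGen (K : Ch C L) : Prop :=
  (∀ q : ℤ, LocZero u (K.homology q)) ∨ ∃ K' : Ch C L, K = (tens (u.op ⋙ line L)).obj K'

variable (L) in
/-- The `A^1`-Nisnevich local equivalences of complexes of presheaves. -/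
def WW : MorphismProperty (Ch C L) :=
  fun _ _ f => Loc (NGen u) (CochainComplex.mappingCone f)

end Pool.Agent.KEW
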