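import Mathlib

/-!
Presheaves of modules, localising classes of complexes, Nisnevich locally zero presheaves.
-/

noncomputable section

open CategoryTheory Limits AlgebraicGeometry MonoidalCategory

namespace Pool.Agent.KEW

/-- Presheaves of `L`-modules on `C`. -/
abbrev PSh (C : Type 1) [Category.{0} C] (L : Type 1) [CommRing L] : Type 2 :=
  Cᵒᵖ ⥤ ModuleCat.{1} L

/-- Unbounded cochain complexes of presheaves of `L`-modules on `C`. -/
abbrev Ch (C : Type 1) [Category.{0} C] (L : Type 1) [CommRing L] : Type 2 :=
  CochainComplex (PSh C L) ℤ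

variable {C : Type 1} [Category.{0} C] {L : Type 1} [CommRing L]

variable (C L) in
/-- The free presheaf `L[Hom(-, U)]` represented by `U`. -/
def rep : C ⥤ PSh C L :=
  uliftYoneda.{1} ⋙ (Functor.whiskeringRight _ _ _).obj (ModuleCat.free L)

instance pshMonoidalPreadditive : MonoidalPreadditive (PSh C L) where
  whiskerLeft_zero := by intros; ext : 2; simp; rfl
  zero_whiskerRight := by intros; ext : 2; simp; rfl
  whiskerLeft_add := by intros; ext : 2; simp; rfl
  add_whiskerRight := by intros; ext : 2; simp; rfl

/-- Termwise and sectionwise tensor product of a complex with a presheaf `P`. -/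
def tens (P : PSh C L) : Ch C L ⥤ Ch C L :=
  (tensorRight P).mapHomologicalComplex _

/-- A presheaf placed in cohomological degree `q`. -/
abbrev sgl (q : ℤ) : PSh C L ⥤ Ch C L := HomologicalComplex.single _ _ q

/-- The localising class generated by `G`: the smallest class of complexes containing `G` and the
acyclic complexes, with the two out of three property for short exact sequences, and closed under
direct sums. -/
inductive Loc (G : Ch C L → Prop) : Ch C L → Prop
  | gen (K : Ch C L) (h : G K) : Loc G K
  | acyclic (K : Ch C L) (h : K.Acyclic) : Loc G K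
  | left (S : ShortComplex (Ch C L)) (hS : S.ShortExact) (h₂ : Loc G S.X₂) (h₃ : Loc G S.X₃) :
      Loc G S.X₁
  | mid (S : ShortComplex (Ch C L)) (hS : S.ShortExact) (h₁ : Loc G S.X₁) (h₃ : Loc G S.X₃) :
      Loc G S.X₂
  | right (S : ShortComplex (Ch C L)) (hS : S.ShortExact) (h₁ : Loc G S.X₁) (h₂ : Loc G S.X₂) :
      Loc G S.X₃
  | sum (ι : Type 1) (K : ι → Ch C L) (h : ∀ i, Loc G (K i)) : Loc G (∐ K)

variable (u : C ⥤ Scheme.{0})

/-- A presheaf is Nisnevich locally zero: every section vanishes on an etale neighbourhood with
trivial residue field extension of any given point. -/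
def LocZero (F : PSh C L) : Prop :=
  ∀ (U : C) (x : u.obj U) (a : F.obj (Opposite.op U)),
    ∃ (V : C) (f : V ⟶ U) (y : u.obj V), Etale (u.map f) ∧ u.map f y = x ∧
      IsIso ((u.map f).residueFieldMap y) ∧ F.map f.op a = 0

end Pool.Agent.KEW
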