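import Mathlib

/-!
Finite relative cycles of Suslin and Voevodsky, recorded by their multiplicity functions.
-/

noncomputable section

open CategoryTheory Limits AlgebraicGeometry

namespace Pool.Agent.KEW

/-- The closed point `Spec κ ⟶ Spec O` of a local ring. -/
abbrev resPt (O : Type) [CommRing O] [IsLocalRing O] :
    Spec (.of (IsLocalRing.ResidueField O)) ⟶ Spec (.of O) :=
  Spec.map (CommRingCat.ofHom (IsLocalRing.residue O))

/-- The generic point of the spectrum of a domain. -/
abbrev genPt (O : Type) [CommRing O] [IsDomain O] : Spec (.of O) :=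
  (⊥ : PrimeSpectrum O)

variable {X W : Scheme.{0}}

/-- The function `c` on the points of `X` is compatible with specialisation along `p : X ⟶ W`:
for every valuation ring `O` with algebraically closed fraction field, every `O`-point `g` of `W`
and every point `y` of `X` over `g` with values in the residue field of `O`, the value of `c` at
`y` is the sum of the values of `c` at the generic points of the lifts of `g` to `O`-points of `X`
with reduction `y`. -/
def Specialises (p : X ⟶ W) (c : X → ℚ) : Prop :=
  ∀ (O : Type) [CommRing O] [IsDomain O] [ValuationRing O] [IsAlgClosed (FractionRing O)]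
    (g : Spec (.of O) ⟶ W) (y : Spec (.of (IsLocalRing.ResidueField O)) ⟶ X),
    y ≫ p = resPt O ≫ g →
      c (y (genPt _)) =
        ∑ᶠ x : {x : Spec (.of O) ⟶ X // x ≫ p = g ∧ resPt O ≫ x = y}, c (x.1 (genPt O))

/-- The set `S` of points of `X` lies in the image of a scheme `Z ⟶ X` finite over `W`. -/
def FinOver (p : X ⟶ W) (S : Set X) : Prop :=
  ∃ (Z : Scheme.{0}) (i : Z ⟶ X), IsFinite (i ≫ p) ∧ S ⊆ Set.range i

end Pool.Agent.KEW
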