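import Pool.Agent.P.MP_6277db_ag.KEW.DefsA
import Pool.Agent.P.MP_6277db_ag.KEW.CycBasic

/-!
The groups of finite relative cycles and the spaces of Voevodsky's motivic cohomology spectrum.
-/

noncomputable section

open CategoryTheory Limits AlgebraicGeometry MonoidalCategory TensorProduct

namespace Pool.Agent.KEW

variable {X W X' W' : Scheme.{0}}

/-- Finite relative cycles on `X` over `W` with coefficients in the rationals with denominator
prime to `m`, recorded by the multiplicities of the geometric points of the fibres. -/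
def Cyc (m : ℕ) (p : X ⟶ W) [IsSeparated p] : AddSubgroup (X → ℚ) where
  carrier := {c | (∀ x, (c x).den.Coprime m) ∧ Specialises p c ∧ FinOver p (Function.support c)}
  zero_mem' := ⟨fun _ => by simp, .zero p, by simpa using FinOver.empty p⟩
  neg_mem' := fun {c} h => ⟨fun x => by simpa using h.1 x, h.2.1.neg, by simpa using h.2.2⟩
  add_mem' := fun {c c'} h h' =>
    ⟨fun x => Nat.Coprime.coprime_dvd_left (Rat.add_den_dvd _ _) ((h.1 x).mul_left (h'.1 x)),
      h.2.1.add h'.2.1 h.2.2 h'.2.2,
      (h.2.2.union h'.2.2).mono (Function.support_add _ _)⟩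

/-- Cycles whose support has closure disjoint from `T`. -/
def CycOff (m : ℕ) (p : X ⟶ W) [IsSeparated p] (T : Set X) : AddSubgroup (Cyc m p) where
  carrier := {c | Disjoint (closure (Function.support c.1)) T}
  zero_mem' := by simp
  neg_mem' := fun {c} h => by simpa using h
  add_mem' := fun {c c'} h h' => by
    refine Set.disjoint_of_subset_left (closure_mono (Function.support_add c.1 c'.1)) ?_
    rw [closure_union]
    exact Set.disjoint_union_left.2 ⟨h, h'⟩

/-- Base change of cycles. -/
def Cyc.pull (m : ℕ) {f : X' ⟶ X} {p' : X' ⟶ W'} {p : X ⟶ W} {g : W' ⟶ W} [IsSeparated p]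
    [IsSeparated p'] (H : IsPullback f p' p g) : Cyc m p →+ Cyc m p' where
  toFun c := ⟨c.1 ∘ f, fun x => c.2.1 (f x), c.2.2.1.pull H, c.2.2.2.pull H⟩
  map_zero' := rfl
  map_add' _ _ := rfl

/-- Extension of cycles by zero along a closed immersion. -/
def Cyc.ext0 (m : ℕ) (i : X ⟶ X') [IsClosedImmersion i] {p : X ⟶ W} {p' : X' ⟶ W}
    [IsSeparated p] [IsSeparated p'] (h : i ≫ p' = p) : Cyc m p →+ Cyc m p' where
  toFun c := ⟨Function.extend i c.1 0, fun x => by
      by_cases hx : ∃ y, i y = x
      · obtain ⟨y, rfl⟩ := hx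
        rw [i.isClosedEmbedding.injective.extend_apply]
        exact c.2.1 y
      · simp [hx],
    Specialises.extend i p' (h ▸ c.2.2.1),
    (FinOver.image i p' (h ▸ c.2.2.2)).mono (support_extend_subset _ _)⟩
  map_zero' := by
    ext x
    by_cases hx : ∃ y, i y = x
    · obtain ⟨y, rfl⟩ := hx
      simp [i.isClosedEmbedding.injective.extend_apply]
    · simp [hx]
  map_add' c c' := by
    ext x
    by_cases hx : ∃ y, i y = x
    · obtain ⟨y, rfl⟩ := hx
      simp [i.isClosedEmbedding.injective.extend_apply]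
    · simp [hx]

/-- Cycles on `A^ι` over `W` modulo the cycles on `A^ι - 0` over `W`. -/
abbrev CycA (m : ℕ) (ι : Type) (W : Scheme.{0}) : Type :=
  Cyc m (𝔸(ι; W) ↘ W) ⧸ CycOff m (𝔸(ι; W) ↘ W) (Set.range (zeroSec ι W))

/-- Base change on `CycA`. -/
def CycA.pull (m : ℕ) (ι : Type) (f : W' ⟶ W) : CycA m ι W →+ CycA m ι W' :=
  QuotientAddGroup.map _ _ (Cyc.pull m (AffineSpace.isPullback_map f)) fun _ hc =>
    Set.disjoint_left.2 fun _ hx hx' => Set.disjoint_left.1 hc
      ((AffineSpace.map ι f).continuous.closure_preimage_subset _ hx) (map_zeroSec ι f hx')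

/-- The cycle `c × a` on `A^ι'` attached to a cycle `c` on `A^ι` and a function `a` on `W`. -/
def CycA.app (m : ℕ) {ι ι' : Type} (e : ι' ≃ Option ι) (W : Scheme.{0}) (a : Γ(W, ⊤)) :
    CycA m ι W →+ CycA m ι' W :=
  QuotientAddGroup.map _ _ (Cyc.ext0 m (graph e W a) (graph_over e W a)) fun c hc =>
    Set.disjoint_left.2 fun x hx hx' => by
      have := closure_mono (support_extend_subset _ _) hx
      rw [(graph e W a).isClosedEmbedding.closure_image_eq] at this
      obtain ⟨y, hy, rfl⟩ := this
      exact Set.disjoint_left.1 hc hy (graph_mem_zeroSec e W a y hx').1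

theorem CycA.app_unit (m : ℕ) {ι ι' : Type} (e : ι' ≃ Option ι) (W : Scheme.{0}) (a : Γ(W, ⊤))
    (ha : IsUnit a) : CycA.app m e W a = 0 := by
  ext c
  refine (QuotientAddGroup.eq_zero_iff _).2 (Set.disjoint_left.2 fun x hx hx' => ?_)
  have := closure_mono (support_extend_subset _ _) hx
  rw [(graph e W a).isClosedEmbedding.closure_image_eq] at this
  obtain ⟨y, _, rfl⟩ := this
  exact (graph_mem_zeroSec e W a y hx').2 ha

theorem CycA.pull_app (m : ℕ) {ι ι' : Type} (e : ι' ≃ Option ι) (f : W' ⟶ W) (a : Γ(W, ⊤)) :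
    (CycA.pull m ι' f).comp (CycA.app m e W a) =
      (CycA.app m e W' (f.appTop a)).comp (CycA.pull m ι f) := by
  ext c
  exact congrArg QuotientAddGroup.mk (Subtype.ext (extend_pull (graph_isPullback e f a)
    (graph e W a).isClosedEmbedding.injective (graph e W' _).isClosedEmbedding.injective c.1))

variable (L : Type 1) [CommRing L]

/-- Extension of scalars `M ↦ L ⊗ M` from abelian groups to `L`-modules. -/
def coef : AddCommGrpCat.{0} ⥤ ModuleCat.{1} L where
  obj M := ModuleCat.of L (L ⊗[ℤ] M)
  map f := ModuleCat.ofHom (f.hom.toIntLinearMap.baseChange L)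
  map_id M := by
    ext : 1
    exact LinearMap.baseChange_id
  map_comp f g := by
    ext : 1
    exact LinearMap.baseChange_comp f.hom.toIntLinearMap g.hom.toIntLinearMap

/-- The presheaf of abelian groups `W ↦ CycA m ι W`. -/
def cycA (m : ℕ) (ι : Type) : Scheme.{0}ᵒᵖ ⥤ AddCommGrpCat.{0} where
  obj W := AddCommGrpCat.of (CycA m ι W.unop)
  map f := AddCommGrpCat.ofHom (CycA.pull m ι f.unop)
  map_id W := by
    ext c
    refine congrArg QuotientAddGroup.mk (Subtype.ext ?_)
    change c.1 ∘ AffineSpace.map ι (𝟙 _) = c.1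
    rw [AffineSpace.map_id]
    rfl
  map_comp f g := by
    ext c
    refine congrArg QuotientAddGroup.mk (Subtype.ext ?_)
    change c.1 ∘ AffineSpace.map ι (g.unop ≫ f.unop) = _
    rw [AffineSpace.map_comp]
    rfl

/-- The space `L_tr(A^ι) / L_tr(A^ι - 0)` of the motivic cohomology spectrum. -/
def HH (m : ℕ) (ι : Type) : PSh Scheme.{0} L := cycA m ι ⋙ coef L

/-- The pairing of a class in `T(W)` with a cycle. -/
def bondPair (m : ℕ) {ι ι' : Type} (e : ι' ≃ Option ι) (W : Scheme.{0}) :
    (tate L).obj (Opposite.op W) →ₗ[L] L ⊗[ℤ] CycA m ι W →ₗ[L] L ⊗[ℤ] CycA m ι' W :=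
  Submodule.liftQ _
    (Finsupp.linearCombination L fun a => (CycA.app m e W a).toIntLinearMap.baseChange L) (by
      rw [Finsupp.supported_eq_span_single, Submodule.span_le]
      rintro _ ⟨a, ha, rfl⟩
      have : (CycA.app m e W a).toIntLinearMap = 0 := by
        rw [CycA.app_unit m e W a ha]
        rfl
      simp [this])

theorem bondPair_nat (m : ℕ) {ι ι' : Type} (e : ι' ≃ Option ι) (f : W' ⟶ W)
    (t : (tate L).obj (Opposite.op W)) (c : L ⊗[ℤ] CycA m ι W) :
    bondPair L m e W' ((tate L).map f.op t) ((CycA.pull m ι f).toIntLinearMap.baseChange L c) =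
      (CycA.pull m ι' f).toIntLinearMap.baseChange L (bondPair L m e W t c) := by
  obtain ⟨t, rfl⟩ := Submodule.Quotient.mk_surjective _ t
  change (Finsupp.linearCombination L fun a => (CycA.app m e W' a).toIntLinearMap.baseChange L)
      (Finsupp.mapDomain f.appTop t) _ = LinearMap.baseChange L _
    ((Finsupp.linearCombination L fun a => (CycA.app m e W a).toIntLinearMap.baseChange L) t c)
  induction t using Finsupp.induction_linear with
  | zero => simp
  | add t t' h h' => simp only [Finsupp.mapDomain_add, map_add, LinearMap.add_apply, h, h']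
  | single a l =>
    simp only [Finsupp.mapDomain_single, Finsupp.linearCombination_single, LinearMap.smul_apply,
      map_smul]
    congr 1
    rw [← LinearMap.comp_apply, ← LinearMap.comp_apply, ← LinearMap.baseChange_comp,
      ← LinearMap.baseChange_comp]
    have h : (CycA.app m e W' (f.appTop a)).toIntLinearMap ∘ₗ (CycA.pull m ι f).toIntLinearMap =
        (CycA.pull m ι' f).toIntLinearMap ∘ₗ (CycA.app m e W a).toIntLinearMap :=
      LinearMap.ext fun x => DFunLike.congr_fun (CycA.pull_app m e f a).symm x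
    rw [h]

/-- The bonding map `H(ι) ⊗ T ⟶ H(ι')`, `c ⊗ [a] ↦ c × a`. -/
def bond (m : ℕ) {ι ι' : Type} (e : ι' ≃ Option ι) : HH L m ι ⊗ tate L ⟶ HH L m ι' where
  app W := ModuleCat.ofHom (TensorProduct.lift (bondPair L m e W.unop).flip)
  naturality W W' f := by
    apply ModuleCat.MonoidalCategory.tensor_ext
    intro c t
    exact bondPair_nat L m e f.unop t c

end Pool.Agent.KEW
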