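import Pool.Agent.P.MP_6277db_ag.KEW.DefsA

/-!
Tensoring with the Tate object preserves the local equivalences.
-/

noncomputable section

open CategoryTheory Limits AlgebraicGeometry MonoidalCategory

namespace Pool.Agent.KEW

variable {C : Type 1} [Category.{0} C] {L : Type 1} [CommRing L] (u : C ⥤ Scheme.{0})

section LocGeneral

variable {C' : Type 1} [Category.{0} C'] {L' : Type 1} [CommRing L']
  {G : Ch C L → Prop} {G' : Ch C' L' → Prop}

theorem TW_acyclic_of_isZero {K : Ch C L} (h : IsZero K) : K.Acyclic := fun i =>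
  ShortComplex.exact_of_isZero_X₂ _ ((HomologicalComplex.eval _ _ i).map_isZero h)

/-- A localising class is closed under isomorphisms. -/
theorem Loc.TW_iso {K K' : Ch C L} (e : K ≅ K') (h : Loc G K) : Loc G K' := by
  open ZeroObject in
  refine Loc.mid (ShortComplex.mk e.hom (0 : K' ⟶ 0) comp_zero) ?_ h
    (Loc.acyclic _ (TW_acyclic_of_isZero (isZero_zero _)))
  exact
    { exact := (ShortComplex.exact_iff_epi _ rfl).2 inferInstance
      mono_f := inferInstance
      epi_g := (isZero_zero _).epi _ }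

theorem Loc.TW_mono {G₂ : Ch C L → Prop} (hG : ∀ K, G K → Loc G₂ K) {K : Ch C L} (h : Loc G K) :
    Loc G₂ K := by
  induction h with
  | gen K h => exact hG K h
  | acyclic K h => exact Loc.acyclic K h
  | left S hS _ _ h₂ h₃ => exact Loc.left S hS h₂ h₃
  | mid S hS _ _ h₁ h₃ => exact Loc.mid S hS h₁ h₃
  | right S hS _ _ h₁ h₂ => exact Loc.right S hS h₁ h₂
  | sum ι K _ h => exact Loc.sum ι K h

/-- A functor that preserves short exact sequences and direct sums and sends the generators and
the acyclic complexes into a localising class sends the whole class into it. -/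
theorem Loc.TW_mapA (F : Ch C L ⥤ Ch C' L') [F.PreservesZeroMorphisms]
    (hex : ∀ S : ShortComplex (Ch C L), S.ShortExact → (S.map F).ShortExact)
    (hsum : ∀ (ι : Type 1) (K : ι → Ch C L), Nonempty (F.obj (∐ K) ≅ ∐ fun i => F.obj (K i)))
    (hac : ∀ K, K.Acyclic → Loc G' (F.obj K)) (hG : ∀ K, G K → Loc G' (F.obj K))
    {K : Ch C L} (h : Loc G K) : Loc G' (F.obj K) := by
  induction h with
  | gen K h => exact hG K h
  | acyclic K h => exact hac K h
  | left S hS _ _ h₂ h₃ => exact Loc.left (S.map F) (hex S hS) h₂ h₃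
  | mid S hS _ _ h₁ h₃ => exact Loc.mid (S.map F) (hex S hS) h₁ h₃
  | right S hS _ _ h₁ h₂ => exact Loc.right (S.map F) (hex S hS) h₁ h₂
  | sum ι K _ h => exact (Loc.sum ι _ h).TW_iso (hsum ι K).some.symm

/-- The same for an exact functor that preserves direct sums. -/
theorem Loc.TW_map (F : Ch C L ⥤ Ch C' L') [F.PreservesZeroMorphisms] [PreservesFiniteLimits F]
    [PreservesFiniteColimits F] [∀ ι : Type 1, PreservesColimitsOfShape (Discrete ι) F]
    (hac : ∀ K, K.Acyclic → Loc G' (F.obj K)) (hG : ∀ K, G K → Loc G' (F.obj K))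
    {K : Ch C L} (h : Loc G K) : Loc G' (F.obj K) :=
  Loc.TW_mapA F (fun _ hS => hS.map_of_exact F) (fun _ K => ⟨PreservesCoproduct.iso F K⟩) hac hG h

theorem TW_acyclic_map (F : PSh C L ⥤ PSh C' L') [F.PreservesZeroMorphisms] [PreservesFiniteLimits F]
    [PreservesFiniteColimits F] {K : Ch C L} (h : K.Acyclic) :
    ((F.mapHomologicalComplex _).obj K).Acyclic := fun i =>
  ShortComplex.Exact.map (h i) F

/-- The same for the termwise application of an exact functor on presheaves. -/
theorem Loc.TW_mapHC (F : PSh C L ⥤ PSh C' L') [F.PreservesZeroMorphisms] [PreservesFiniteLimits F]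
    [PreservesFiniteColimits F] [∀ ι : Type 1, PreservesColimitsOfShape (Discrete ι) F]
    (hG : ∀ K, G K → Loc G' ((F.mapHomologicalComplex _).obj K))
    {K : Ch C L} (h : Loc G K) : Loc G' ((F.mapHomologicalComplex _).obj K) :=
  Loc.TW_map (F.mapHomologicalComplex _) (fun _ hK => Loc.acyclic _ (TW_acyclic_map F hK)) hG h

/-- The homology of the termwise image under an exact functor. -/
def TW_homologyMapIso (F : PSh C L ⥤ PSh C' L') [F.PreservesZeroMorphisms] [PreservesFiniteLimits F]
    [PreservesFiniteColimits F] (K : Ch C L) (q : ℤ) :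
    ((F.mapHomologicalComplex _).obj K).homology q ≅ F.obj (K.homology q) :=
  (K.sc q).mapHomologyIso F

end LocGeneral

/-- Tensor products of presheaves are computed sectionwise. -/
def TW_tensorRightEval (P : PSh C L) (U : Cᵒᵖ) :
    tensorRight P ⋙ (evaluation _ _).obj U ≅ (evaluation _ _).obj U ⋙ tensorRight (P.obj U) :=
  Iso.refl _

instance TW_tensorRight_preservesColimitsOfShape (P : PSh C L) (J : Type 1) [Category.{1} J] :
    PreservesColimitsOfShape J (tensorRight P) :=
  preservesColimitsOfShape_of_evaluation _ _ fun U =>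
    have : PreservesColimitsOfShape J (tensorRight (P.obj U)) :=
      preservesColimitsOfShape_of_natIso (BraidedCategory.tensorLeftIsoTensorRight (P.obj U))
    preservesColimitsOfShape_of_natIso (TW_tensorRightEval P U).symm

instance TW_tensorRight_preservesFiniteColimits (P : PSh C L) :
    PreservesFiniteColimits (tensorRight P) :=
  preservesFiniteColimits_of_evaluation _ fun U =>
    have : PreservesFiniteColimits (tensorRight (P.obj U)) :=
      preservesFiniteColimits_of_natIso (BraidedCategory.tensorLeftIsoTensorRight (P.obj U))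
    preservesFiniteColimits_of_natIso (TW_tensorRightEval P U).symm

theorem TW_tensorRight_preservesFiniteLimits (P : PSh C L) (hP : ∀ U, Module.Flat L (P.obj U)) :
    PreservesFiniteLimits (tensorRight P) :=
  preservesFiniteLimits_of_evaluation _ fun U =>
    have := hP U
    preservesFiniteLimits_of_natIso (TW_tensorRightEval P U).symm

theorem LocZero.TW_iso {F F' : PSh C L} (e : F ≅ F') (h : LocZero u F) : LocZero u F' := by
  intro U x a
  obtain ⟨V, f, y, h1, h2, h3, h4⟩ := h U x (e.inv.app _ a)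
  refine ⟨V, f, y, h1, h2, h3, ?_⟩
  have h5 : F'.map f.op = e.inv.app _ ≫ F.map f.op ≫ e.hom.app _ := by
    rw [e.hom.naturality, Iso.inv_hom_id_app_assoc]
  rw [h5, ModuleCat.comp_apply, ModuleCat.comp_apply, h4, map_zero]

/-- Nisnevich neighbourhoods compose. -/
theorem TW_nis_comp {U V W : C} (f : V ⟶ U) (g : W ⟶ V) (z : u.obj W) (hf : Etale (u.map f))
    (hg : Etale (u.map g)) (hf' : IsIso ((u.map f).residueFieldMap (u.map g z)))
    (hg' : IsIso ((u.map g).residueFieldMap z)) :
    Etale (u.map (g ≫ f)) ∧ u.map (g ≫ f) z = u.map f (u.map g z) ∧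
      IsIso ((u.map (g ≫ f)).residueFieldMap z) := by
  rw [u.map_comp]
  refine ⟨inferInstance, rfl, ?_⟩
  rw [Scheme.residueFieldMap_comp]
  exact IsIso.comp_isIso' hf' hg'

/-- All restrictions of the section `a` vanish Nisnevich locally. -/
def TW_Dies (H : PSh C L) {U : C} (a : H.obj (Opposite.op U)) : Prop :=
  ∀ (V : C) (g : V ⟶ U) (x : u.obj V), ∃ (W : C) (f : W ⟶ V) (y : u.obj W),
    Etale (u.map f) ∧ u.map f y = x ∧ IsIso ((u.map f).residueFieldMap y) ∧
      H.map (f ≫ g).op a = 0

theorem TW_Dies.add {H : PSh C L} {U : C} {a b : H.obj (Opposite.op U)} (ha : TW_Dies u H a)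
    (hb : TW_Dies u H b) : TW_Dies u H (a + b) := by
  intro V g x
  obtain ⟨W, f, y, h1, h2, h3, h4⟩ := ha V g x
  obtain ⟨W', f', y', h1', h2', h3', h4'⟩ := hb W (f ≫ g) y
  subst h2'
  obtain ⟨k1, k2, k3⟩ := TW_nis_comp u f f' y' h1 h1' h3 h3'
  refine ⟨W', f' ≫ f, y', k1, k2.trans h2, k3, ?_⟩
  have h5 : H.map (f' ≫ f ≫ g).op a = 0 := by
    rw [op_comp, Functor.map_comp, ModuleCat.comp_apply, h4, map_zero]
  rw [Category.assoc, map_add, h5, h4', add_zero]

theorem LocZero.TW_dies {H : PSh C L} (h : LocZero u H) {U : C} (a : H.obj (Opposite.op U)) :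
    TW_Dies u H a := by
  intro V g x
  obtain ⟨W, f, y, h1, h2, h3, h4⟩ := h V x (H.map g.op a)
  refine ⟨W, f, y, h1, h2, h3, ?_⟩
  rw [op_comp, H.map_comp, ModuleCat.comp_apply, h4]

theorem TW_locZero_of_dies {H : PSh C L} (h : ∀ (U : C) (a : H.obj (Opposite.op U)), TW_Dies u H a) :
    LocZero u H := by
  intro U x a
  simpa only [Category.comp_id] using h U a U (𝟙 U) x

theorem LocZero.TW_tensor {F : PSh C L} (h : LocZero u F) (P : PSh C L) : LocZero u (F ⊗ P) := by
  refine TW_locZero_of_dies u fun U a => ?_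
  have hp : ∀ (s : F.obj (Opposite.op U)) (t : P.obj (Opposite.op U)),
      TW_Dies u (F ⊗ P) (U := U) (s ⊗ₜ[L] t) := by
    intro s t V g x
    obtain ⟨W, f, y, h1, h2, h3, h4⟩ := h.TW_dies u s V g x
    refine ⟨W, f, y, h1, h2, h3, ?_⟩
    change (F.map (f ≫ g).op s) ⊗ₜ[L] (P.map (f ≫ g).op t) = 0
    rw [h4, TensorProduct.zero_tmul]
  induction a using TensorProduct.induction_on with
  | zero =>
    intro V g x
    obtain ⟨W, f, y, h1, h2, h3, -⟩ := hp 0 0 V g x
    exact ⟨W, f, y, h1, h2, h3, map_zero _⟩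
  | tmul s t => exact hp s t
  | add a b ha hb => exact TW_Dies.add u ha hb

/-- Tensoring with two presheaves in either order. -/
def tensComm (P Q : PSh C L) (K : Ch C L) :
    (tens P).obj ((tens Q).obj K) ≅ (tens Q).obj ((tens P).obj K) :=
  HomologicalComplex.Hom.isoOfComponents
    (fun i => (((tensorRightTensor Q P).symm ≪≫ (tensoringRight _).mapIso (β_ Q P) ≪≫
      tensorRightTensor P Q).app (K.X i) :))
    (fun i j _ => (((tensorRightTensor Q P).symm ≪≫ (tensoringRight _).mapIso (β_ Q P) ≪≫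
      tensorRightTensor P Q).hom.naturality (K.d i j)).symm)

theorem tens_loc (P : PSh C L) (hP : ∀ U, Module.Flat L (P.obj U)) {K : Ch C L}
    (h : Loc (NGen u) K) : Loc (NGen u) ((tens P).obj K) := by
  have := TW_tensorRight_preservesFiniteLimits P hP
  refine Loc.TW_mapHC (tensorRight P) ?_ h
  rintro K (hK | ⟨K', rfl⟩)
  · exact Loc.gen _ (Or.inl fun q =>
      LocZero.TW_iso u (TW_homologyMapIso (tensorRight P) K q).symm ((hK q).TW_tensor u P))
  · exact (Loc.gen _ (Or.inr ⟨(tens P).obj K', rfl⟩)).TW_iso (tensComm _ _ K')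

theorem tens_WW (P : PSh C L) (hP : ∀ U, Module.Flat L (P.obj U)) {K K' : Ch C L} (f : K ⟶ K')
    (hf : WW L u f) : WW L u ((tens P).map f) := by
  exact (tens_loc u P hP hf).TW_iso
    (CochainComplex.mappingCone.mapHomologicalComplexIso f (tensorRight P))

theorem free_funQuot (S : ∀ R : CommRingCat.{0}, Set R)
    (hS : ∀ {R R' : CommRingCat.{0}} (f : R ⟶ R'), Set.MapsTo f (S R) (S R'))
    (U : Scheme.{0}ᵒᵖ) : Module.Free L ((funQuot L S hS).obj U) :=
  Module.Free.of_equiv ((Submodule.quotientEquivOfIsCompl _ _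
    ⟨Finsupp.disjoint_supported_supported disjoint_compl_right,
      Finsupp.codisjoint_supported_supported isCompl_compl.codisjoint⟩).trans
    (Finsupp.supportedEquivFinsupp (S Γ(U.unop, ⊤))ᶜ)).symm

theorem flat_funQuot (S : ∀ R : CommRingCat.{0}, Set R)
    (hS : ∀ {R R' : CommRingCat.{0}} (f : R ⟶ R'), Set.MapsTo f (S R) (S R'))
    (U : Scheme.{0}ᵒᵖ) : Module.Flat L ((funQuot L S hS).obj U) :=
  have := free_funQuot (L := L) S hS U
  inferInstance

theorem flat_line (U : Scheme.{0}ᵒᵖ) : Module.Flat L ((line L).obj U) := by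
  exact flat_funQuot (fun _ => {0}) (fun f => by simp [Set.MapsTo]) U

theorem flat_tate (U : Scheme.{0}ᵒᵖ) : Module.Flat L ((tate L).obj U) := by
  exact flat_funQuot (fun _ => {a | IsUnit a}) (fun f _ ha => IsUnit.map f.hom ha) U

theorem tens_tate_inverts :
    (WW L u).IsInvertedBy (tens (u.op ⋙ tate L) ⋙ (WW L u).Q) := fun _ _ f hf =>
  (WW L u).Q_inverts _ (tens_WW u _ (fun _ => flat_tate _) f hf)

end Pool.Agent.KEW
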