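import Pool.Agent.P.MP_6277db_ag.KEW.DefsC
import Pool.Agent.P.MP_6277db_ag.KEW.TensW

/-!
`T`-spectra in the `A^1`-derived category, their cohomology, Voevodsky's spectrum, and the sites
over a discrete valuation ring.
-/

noncomputable section

open CategoryTheory Limits AlgebraicGeometry MonoidalCategory

namespace Pool.Agent.KEW

section spectra

variable {C : Type 1} [Category.{0} C] (L : Type 1) [CommRing L] (u : C ⥤ Scheme.{0})

/-- Tensoring a complex with the Tate object `T`. -/
def tT : Ch C L ⥤ Ch C L := tens (u.op ⋙ tate L)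

/-- A `T`-spectrum: complexes `E n` with maps `E n ⊗ T ⟶ E (n + 1)`. -/
structure Spt where
  /-- the levels -/
  X : ℕ → Ch C L
  /-- the bonding maps -/
  σ : ∀ n, (tT L u).obj (X n) ⟶ X (n + 1)

/-- The functor from complexes to the effective `A^1`-derived category. -/
abbrev QA : Ch C L ⥤ (WW L u).Localization := (WW L u).Q

/-- The functor `- ⊗ T` on the effective `A^1`-derived category. -/
def susp : (WW L u).Localization ⥤ (WW L u).Localization :=
  Localization.lift (tT L u ⋙ QA L u) (tens_tate_inverts u) (QA L u)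

/-- The suspension commutes with the localisation functor. -/
def suspFac : QA L u ⋙ susp L u ≅ tT L u ⋙ QA L u :=
  Localization.fac (tT L u ⋙ QA L u) (tens_tate_inverts u) (QA L u)

/-- `F ↦ F[-q] ⊗ T^n`. -/
def src (q : ℤ) : ℕ → (PSh C L ⥤ Ch C L)
  | 0 => sgl q
  | n + 1 => src q n ⋙ tT L u

variable {L u}

/-- There is a map of spectra `E ⟶ E'` which is levelwise a local equivalence. -/
def LevelW (E E' : Spt L u) : Prop :=
  ∃ f : ∀ n, E.X n ⟶ E'.X n, (∀ n, WW L u (f n)) ∧
    ∀ n, E.σ n ≫ f (n + 1) = (tT L u).map (f n) ≫ E'.σ n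

/-- The transition map `Hom(K, E n) → Hom(K ⊗ T, E (n + 1))`. -/
def step (E : Spt L u) {K : Ch C L} {n : ℕ} (φ : (QA L u).obj K ⟶ (QA L u).obj (E.X n)) :
    (QA L u).obj ((tT L u).obj K) ⟶ (QA L u).obj (E.X (n + 1)) :=
  (suspFac L u).inv.app K ≫ (susp L u).map φ ≫ (suspFac L u).hom.app (E.X n) ≫
    (QA L u).map (E.σ n)

theorem step_comp (E : Spt L u) {K K' : Ch C L} {n : ℕ} (f : K' ⟶ K)
    (φ : (QA L u).obj K ⟶ (QA L u).obj (E.X n)) :
    step E ((QA L u).map f ≫ φ) = (QA L u).map ((tT L u).map f) ≫ step E φ := by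
  have := (suspFac L u).inv.naturality f
  simp only [Functor.comp_map] at this
  simp only [step, Functor.map_comp, Category.assoc]
  rw [← Category.assoc, ← this, Category.assoc]

/-- The `E`-cohomology `H^{i,j}(U) = colim_n Hom(L[U][2j-i] ⊗ T^n, E (j + n))`, morphisms being
taken in the effective `A^1`-derived category. -/
def Coh (E : Spt L u) (i : ℤ) (j : ℕ) (U : C) : Type 2 :=
  Quot fun x y : Σ n : ℕ,
      ((QA L u).obj ((src L u (i - 2 * j) n).obj ((rep C L).obj U)) ⟶ (QA L u).obj (E.X (j + n))) =>
    y = ⟨x.1 + 1, step E x.2⟩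

/-- Pull back in `E`-cohomology. -/
def Coh.map (E : Spt L u) (i : ℤ) (j : ℕ) {U V : C} (f : V ⟶ U) : Coh E i j U → Coh E i j V :=
  Quot.map (fun x => ⟨x.1, (QA L u).map ((src L u (i - 2 * j) x.1).map ((rep C L).map f)) ≫ x.2⟩)
    (by
      rintro x _ rfl
      exact congrArg (Sigma.mk (x.1 + 1)) (step_comp E _ x.2).symm)

/-- Restriction of complexes of presheaves along a functor. -/
def resCh {C' : Type 1} [Category.{0} C'] (φ : C' ⥤ C) : Ch C L ⥤ Ch C' L :=
  ((Functor.whiskeringLeft _ _ _).obj φ.op).mapHomologicalComplex _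

/-- Restriction of a spectrum along a functor of sites. -/
def Spt.res (E : Spt L u) {C' : Type 1} [Category.{0} C'] (φ : C' ⥤ C) : Spt L (φ ⋙ u) where
  X n := (resCh φ).obj (E.X n)
  σ n := (resCh φ).map (E.σ n)

variable (L u)

/-- Voevodsky's motivic cohomology spectrum `n ↦ L_tr(A^n) / L_tr(A^n - 0)`. -/
def voev (m : ℕ) : Spt L u where
  X n := (sgl 0).obj (u.op ⋙ HH L m (Fin n))
  σ n := (HomologicalComplex.singleMapHomologicalComplex (tensorRight (u.op ⋙ tate L)) _ 0).hom.app
      (u.op ⋙ HH L m (Fin n)) ≫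
    (sgl 0).map (Functor.whiskerLeft u.op (bond L m finSuccEquivLast))

end spectra

section sites

variable (A : Type) [CommRing A]

/-- Separated schemes of finite type over `A`. -/
abbrev Big : Type 1 :=
  ObjectProperty.FullSubcategory (fun X : Over (Spec (.of A)) =>
    LocallyOfFiniteType X.hom ∧ QuasiCompact X.hom ∧ IsSeparated X.hom)

/-- The underlying scheme. -/
def big : Big A ⥤ Scheme.{0} := ObjectProperty.ι _ ⋙ Over.forget _

/-- Smooth separated `A`-schemes of finite type with empty special fibre, that is smooth schemes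
over the fraction field of the discrete valuation ring `A`. -/
abbrev SmGen [IsLocalRing A] : Type 1 :=
  ObjectProperty.FullSubcategory (fun X : Big A =>
    Smooth X.obj.hom ∧ IsLocalRing.closedPoint A ∉ Set.range X.obj.hom)

/-- The inclusion of the smooth site of the generic point in the big site. -/
def smGen [IsLocalRing A] : SmGen A ⥤ Big A := ObjectProperty.ι _

/-- The complex `K` on the big site is generated by smooth schemes: it lies in the localising class
generated by the acyclic objects and the representable presheaves of smooth `A`-schemes. -/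
def SmGenerated (L : Type 1) [CommRing L] (K : Ch (Big A) L) : Prop :=
  Loc (fun K' => NGen (big A) K' ∨
    ∃ U : Big A, Smooth U.obj.hom ∧ K' = (sgl 0).obj ((rep (Big A) L).obj U)) K

attribute [local instance] MvPolynomial.gradedAlgebra

variable {A} in
/-- `f : X ⟶ Spec A` is projective: it factors through a closed immersion into some projective
space `Proj A[x_0, ..., x_n]`. -/
def IsProj {X : Scheme.{0}} (f : X ⟶ Spec (.of A)) : Prop :=
  ∃ (n : ℕ) (j : X ⟶ Proj (MvPolynomial.homogeneousSubmodule (Fin (n + 1)) A)),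
    IsClosedImmersion j ∧
      j ≫ Proj.toSpecZero _ ≫ Spec.map (CommRingCat.ofHom
        (algebraMap A (MvPolynomial.homogeneousSubmodule (Fin (n + 1)) A 0))) = f

/-- `E` is a motivic cohomology spectrum with `ℤ/m`-coefficients over `A`: it is extended from the
smooth site, and over the generic point it is levelwise equivalent to Voevodsky's spectrum. -/
def IsMotCoh [IsLocalRing A] (m : ℕ) (E : Spt (ULift.{1} (ZMod m)) (big A)) : Prop :=
  (∀ n, SmGenerated A _ (E.X n)) ∧
    Relation.EqvGen LevelW (E.res (smGen A)) (voev _ (smGen A ⋙ big A) m)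

end sites

end Pool.Agent.KEW
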