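import Pool.Agent.P.MP_6277db_ag.KEW.DefsD
import Pool.Agent.P.MP_6277db_ag.KEW.L1.Site

/-!
The sites over an affine base: the smooth site, affine objects, and the site axioms.
-/

noncomputable section

open CategoryTheory Limits AlgebraicGeometry

namespace Pool.Agent.KEW

variable (A : Type) [CommRing A]

/-- Smooth separated `A`-schemes of finite type. -/
abbrev Sm : Type 1 :=
  ObjectProperty.FullSubcategory (fun X : Big A => Smooth X.obj.hom)

/-- The inclusion of the smooth site in the big site. -/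
def smBig : Sm A ⥤ Big A := ObjectProperty.ι _

/-- The underlying scheme of a smooth `A`-scheme. -/
abbrev smS : Sm A ⥤ Scheme.{0} := smBig A ⋙ big A

/-- The inclusion of the smooth site of the generic point in the smooth site. -/
def genSm [IsLocalRing A] : SmGen A ⥤ Sm A := ObjectProperty.ιOfLE fun _ h => h.1

theorem genSm_smBig [IsLocalRing A] : genSm A ⋙ smBig A = smGen A := rfl

variable {A}

/-- The object of the big site attached to a finite type algebra. -/
def specBig {B : Type} [CommRing B] (β : A →+* B) (hβ : β.FiniteType) : Big A :=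
  ⟨Over.mk (Spec.map (CommRingCat.ofHom β)),
    HasRingHomProperty.Spec_iff.2 hβ, inferInstanceAs (QuasiCompact (Spec.map _)),
    inferInstanceAs (IsSeparated (Spec.map _))⟩

/-- The morphism of the big site attached to an algebra map. -/
def specBigMap {B B' : Type} [CommRing B] [CommRing B'] {β : A →+* B} {β' : A →+* B'}
    (hβ : β.FiniteType) (hβ' : β'.FiniteType) (f : B →+* B') (hf : f.comp β = β') :
    specBig β' hβ' ⟶ specBig β hβ :=
  ObjectProperty.homMk (Over.homMk (Spec.map (CommRingCat.ofHom f)) (by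
    change Spec.map _ ≫ Spec.map _ = Spec.map _
    rw [← Spec.map_comp, ← CommRingCat.ofHom_comp, hf]))

theorem smooth_finiteType {B : Type} [CommRing B] {β : A →+* B} (hβ : β.Smooth) : β.FiniteType := by
  algebraize [β]
  exact RingHom.finiteType_algebraMap.2 inferInstance

/-- The object of the smooth site attached to a smooth algebra. -/
def specSm {B : Type} [CommRing B] (β : A →+* B) (hβ : β.Smooth) : Sm A :=
  ⟨specBig β (smooth_finiteType hβ), HasRingHomProperty.Spec_iff.2 hβ⟩

/-- The morphism of the smooth site attached to an algebra map. -/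
def specSmMap {B B' : Type} [CommRing B] [CommRing B'] {β : A →+* B} {β' : A →+* B'}
    (hβ : β.Smooth) (hβ' : β'.Smooth) (f : B →+* B') (hf : f.comp β = β') :
    specSm β' hβ' ⟶ specSm β hβ :=
  ObjectProperty.homMk (specBigMap (smooth_finiteType hβ) (smooth_finiteType hβ') f hf)

theorem smS_specSm {B : Type} [CommRing B] (β : A →+* B) (hβ : β.Smooth) :
    (smS A).obj (specSm β hβ) = Spec (.of B) := rfl

theorem smS_specSmMap {B B' : Type} [CommRing B] [CommRing B'] {β : A →+* B} {β' : A →+* B'}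
    (hβ : β.Smooth) (hβ' : β'.Smooth) (f : B →+* B') (hf : f.comp β = β') :
    (smS A).map (specSmMap hβ hβ' f hf) = Spec.map (CommRingCat.ofHom f) := rfl

theorem specSmMap_id {B : Type} [CommRing B] {β : A →+* B} (hβ : β.Smooth)
    (h : (RingHom.id B).comp β = β) : specSmMap hβ hβ (RingHom.id B) h = 𝟙 _ := by
  ext1
  ext1
  ext1
  exact Spec.map_id _

theorem specSmMap_comp {B B' B'' : Type} [CommRing B] [CommRing B'] [CommRing B''] {β : A →+* B}
    {β' : A →+* B'} {β'' : A →+* B''} (hβ : β.Smooth) (hβ' : β'.Smooth) (hβ'' : β''.Smooth)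
    (f : B →+* B') (g : B' →+* B'') (hf : f.comp β = β') (hg : g.comp β' = β'')
    (h : (g.comp f).comp β = β'') :
    specSmMap hβ hβ'' (g.comp f) h = specSmMap hβ' hβ'' g hg ≫ specSmMap hβ hβ' f hf := by
  ext1
  ext1
  ext1
  exact Spec.map_comp (CommRingCat.ofHom f) (CommRingCat.ofHom g)

variable (A)

/-- A full subcategory of a site which is closed under etale maps is a site. -/
theorem IsSite.full {C : Type 1} [Category.{0} C] {u : C ⥤ Scheme.{0}} (hu : IsSite u)
    (P : ObjectProperty C) (hP : ∀ {V U : C} (f : V ⟶ U), Etale (u.map f) → P U → P V) :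
    IsSite (P.ι ⋙ u) where
  faithful := by
    have := hu.faithful
    infer_instance
  lift := fun φ ψ h hh => by
    obtain ⟨h', hh'⟩ := hu.lift φ.hom ψ.hom h hh
    exact ⟨ObjectProperty.homMk h', hh'⟩
  etale := fun U V f h1 h2 h3 => by
    obtain ⟨V', f', e, he⟩ := hu.etale U.obj V f h1 h2 h3
    have hf' : Etale (u.map f') := by
      rw [he]
      infer_instance
    exact ⟨⟨V', hP f' hf' U.property⟩, ObjectProperty.homMk f', e, he⟩
  noeth := fun U => hu.noeth U.obj

/-- A full subcategory which is closed under affine lines has cylinders. -/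
theorem HasCyl.full {C : Type 1} [Category.{0} C] {u : C ⥤ Scheme.{0}} (P : ObjectProperty C)
    (hP : ∀ U : C, P U → ∃ c : Cyl u U, P c.I) : HasCyl (P.ι ⋙ u) := by
  intro U
  obtain ⟨c, hc⟩ := hP U.obj U.property
  refine ⟨⟨⟨c.I, hc⟩, ObjectProperty.homMk c.p, c.t, fun V => ⟨fun φ ψ h => ?_, ?_⟩⟩⟩
  · refine ObjectProperty.hom_ext _ ((c.bij V.obj).1 (Prod.ext ?_ ?_))
    · exact congrArg (fun x => x.1.hom) h
    · exact (congrArg Prod.snd h :)
  · rintro ⟨g, t⟩
    obtain ⟨φ, hφ⟩ := (c.bij V.obj).2 (g.hom, t)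
    refine ⟨ObjectProperty.homMk φ, Prod.ext ?_ (congrArg Prod.snd hφ :)⟩
    exact ObjectProperty.hom_ext _ (congrArg Prod.fst hφ)

set_option backward.isDefEq.respectTransparency.types false in
theorem Sites_smooth_affineSpace (S : Scheme.{0}) : Smooth (𝔸(Fin 1; S) ↘ S) :=
  MorphismProperty.pullback_fst _ _ <| by
  have := isIso_of_isTerminal specULiftZIsTerminal.{0} terminalIsTerminal (terminal.from _)
  rw [← terminal.comp_from (Spec.map (CommRingCat.ofHom MvPolynomial.C)),
    MorphismProperty.cancel_right_of_respectsIso (P := @Smooth),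
    HasRingHomProperty.Spec_iff (P := @Smooth)]
  have : Algebra.Smooth (ULift.{0} ℤ) (MvPolynomial (Fin 1) (ULift.{0} ℤ)) :=
    ⟨inferInstance, inferInstance⟩
  exact RingHom.smooth_algebraMap.2 this

/-- The affine line over an object of the big site. -/
theorem exists_cyl_big (U : Big A) : ∃ c : Cyl (big A) U, Smooth c.p.hom.left := by
  obtain ⟨h1, h2, h3⟩ := U.property
  have hs := Sites_smooth_affineSpace U.obj.left
  let I : Big A := ⟨Over.mk ((𝔸(Fin 1; U.obj.left) ↘ U.obj.left) ≫ U.obj.hom),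
    inferInstanceAs (LocallyOfFiniteType (_ ≫ _)), inferInstanceAs (QuasiCompact (_ ≫ _)),
    inferInstanceAs (IsSeparated (_ ≫ _))⟩
  let p : I ⟶ U := ObjectProperty.homMk (Over.homMk (𝔸(Fin 1; U.obj.left) ↘ U.obj.left) rfl)
  refine ⟨⟨I, p, AffineSpace.coord U.obj.left 0, fun V => ⟨fun φ ψ h => ?_, ?_⟩⟩, hs⟩
  · refine ObjectProperty.hom_ext _ (Over.OverMorphism.ext (AffineSpace.hom_ext ?_ fun i => ?_))
    · exact congrArg (fun x => x.1.hom.left) h
    · obtain rfl : i = 0 := Subsingleton.elim _ _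
      exact congrArg Prod.snd h
  · rintro ⟨g, t⟩
    refine ⟨ObjectProperty.homMk (Over.homMk (AffineSpace.homOfVector g.hom.left fun _ => t) ?_),
      Prod.ext ?_ ?_⟩
    · change _ ≫ _ ≫ _ = _
      rw [AffineSpace.homOfVector_over_assoc]
      exact Over.w g.hom
    · exact ObjectProperty.hom_ext _ (Over.OverMorphism.ext (AffineSpace.homOfVector_over _ _))
    · exact AffineSpace.homOfVector_appTop_coord _ _ _

theorem isSite_big [IsNoetherianRing A] : IsSite (big A) where
  faithful := by
    unfold big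
    infer_instance
  lift := fun {V B X} φ ψ h hh => by
    refine ⟨ObjectProperty.homMk (Over.homMk h ?_), rfl⟩
    rw [← Over.w ψ.hom, ← Over.w φ.hom, ← Category.assoc]
    exact congrArg (· ≫ X.obj.hom) hh
  etale := fun U V f h1 h2 h3 => by
    obtain ⟨k1, k2, k3⟩ := U.property
    let g : V ⟶ U.obj.left := f
    have h1' : Etale g := h1
    have h2' : IsSeparated g := h2
    have h3' : QuasiCompact g := h3
    refine ⟨⟨Over.mk (g ≫ U.obj.hom), inferInstanceAs (LocallyOfFiniteType (_ ≫ _)),
      inferInstanceAs (QuasiCompact (_ ≫ _)), inferInstanceAs (IsSeparated (_ ≫ _))⟩,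
      ObjectProperty.homMk (Over.homMk g rfl), Iso.refl _, (Category.id_comp _).symm⟩
  noeth := fun U => by
    obtain ⟨k1, k2, -⟩ := U.property
    have h1 : IsLocallyNoetherian U.obj.left := LocallyOfFiniteType.isLocallyNoetherian U.obj.hom
    have h2 : CompactSpace U.obj.left := QuasiCompact.compactSpace_of_compactSpace U.obj.hom
    exact ({ toIsLocallyNoetherian := h1, toCompactSpace := h2 } : IsNoetherian U.obj.left)

theorem hasCyl_big : HasCyl (big A) := fun U => ⟨(exists_cyl_big A U).choose⟩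

theorem Sites_smooth_of {V U : Big A} (f : V ⟶ U) (hf : Smooth f.hom.left)
    (hU : Smooth U.obj.hom) : Smooth V.obj.hom := by
  rw [← Over.w f.hom]
  infer_instance

theorem Sites_notMem_of {V U : Big A} (f : V ⟶ U) {x : Spec (.of A)}
    (hU : x ∉ Set.range U.obj.hom) : x ∉ Set.range V.obj.hom := by
  rintro ⟨y, rfl⟩
  refine hU ⟨f.hom.left y, ?_⟩
  rw [← Over.w f.hom]
  rfl

theorem Sites_smooth_of_etale {V U : Big A} (f : V ⟶ U) (hf : Etale ((big A).map f)) :
    Smooth f.hom.left := by
  have : Etale f.hom.left := hf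
  infer_instance

theorem isSite_sm [IsNoetherianRing A] : IsSite (smS A) :=
  (isSite_big A).full _ fun f hf hU => Sites_smooth_of A f (Sites_smooth_of_etale A f hf) hU

theorem hasCyl_sm : HasCyl (smS A) :=
  HasCyl.full _ fun U hU => by
    obtain ⟨c, hc⟩ := exists_cyl_big A U
    exact ⟨c, Sites_smooth_of A c.p hc hU⟩

theorem isSite_smGen [IsNoetherianRing A] [IsLocalRing A] : IsSite (smGen A ⋙ big A) :=
  (isSite_big A).full _ fun f hf hU =>
    ⟨Sites_smooth_of A f (Sites_smooth_of_etale A f hf) hU.1, Sites_notMem_of A f hU.2⟩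

theorem hasCyl_smGen [IsLocalRing A] : HasCyl (smGen A ⋙ big A) :=
  HasCyl.full _ fun U hU => by
    obtain ⟨c, hc⟩ := exists_cyl_big A U
    exact ⟨c, Sites_smooth_of A c.p hc hU.1, Sites_notMem_of A c.p hU.2⟩

theorem Sites_dim_of_cover {X : Type*} [TopologicalSpace X] {d : WithBot ℕ∞}
    (h : ∀ x : X, ∃ (Y : Type) (_ : TopologicalSpace Y) (f : Y → X),
      Topology.IsOpenEmbedding f ∧ x ∈ Set.range f ∧ topologicalKrullDim Y ≤ d) :
    topologicalKrullDim X ≤ d := by
  rw [topologicalKrullDim, Order.krullDim_eq_iSup_coheight]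
  refine iSup_le fun Z => ?_
  obtain ⟨x, hx⟩ := Z.2.nonempty
  obtain ⟨Y, _, f, hf, ⟨y, rfl⟩, hY⟩ := h x
  obtain ⟨W, hW⟩ := (TopologicalSpace.IrreducibleCloseds.orderIsoOfIsOpenEmbedding f hf).surjective
    ⟨Z, y, hx⟩
  have hZ : TopologicalSpace.IrreducibleCloseds.map f hf.continuous W = Z :=
    congrArg Subtype.val hW
  rw [← hZ, hf.coheight_map]
  exact (Order.coheight_le_krullDim W).trans hY

theorem Sites_dim_ring [IsNoetherianRing A] (a : ℕ) (ha : ringKrullDim A ≤ a) {B : Type}
    [CommRing B] (β : A →+* B) (hβ : β.FiniteType) : ∃ d : ℕ, ringKrullDim B ≤ d := by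
  algebraize [β]
  obtain ⟨n, f, hf⟩ := Algebra.FiniteType.iff_quotient_mvPolynomial''.1 hβ
  refine ⟨a + n, (ringKrullDim_le_of_surjective f.toRingHom hf).trans ?_⟩
  rw [MvPolynomial.ringKrullDim_of_isNoetherianRing, Nat.card_fin, Nat.cast_add]
  gcongr

/-- Schemes of finite type over a finite dimensional noetherian ring are finite dimensional. -/
theorem exists_dim_big [IsNoetherianRing A] (a : ℕ) (ha : ringKrullDim A ≤ a) (U : Big A) :
    ∃ d : ℕ, topologicalKrullDim ((big A).obj U) ≤ d := by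
  obtain ⟨k1, k2, -⟩ := U.property
  have h2 : CompactSpace U.obj.left := QuasiCompact.compactSpace_of_compactSpace U.obj.hom
  have key : ∀ x : U.obj.left, ∃ (d : ℕ) (B : CommRingCat.{0}) (f : Spec B ⟶ U.obj.left),
      IsOpenImmersion f ∧ x ∈ Set.range f ∧ topologicalKrullDim (Spec B) ≤ d := by
    intro x
    obtain ⟨B, f, hf, hx⟩ : ∃ (B : CommRingCat.{0}) (f : Spec B ⟶ U.obj.left),
        IsOpenImmersion f ∧ x ∈ Set.range f :=
      ⟨_, U.obj.left.affineOpenCover.f (U.obj.left.affineOpenCover.idx x), inferInstance,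
        U.obj.left.affineOpenCover.covers x⟩
    obtain ⟨φ, hφ⟩ := Spec.map_surjective (f ≫ U.obj.hom)
    have h3 : LocallyOfFiniteType (Spec.map φ) := by
      rw [hφ]
      infer_instance
    obtain ⟨d, hd⟩ := Sites_dim_ring A a ha φ.hom (HasRingHomProperty.Spec_iff.1 h3)
    exact ⟨d, B, f, hf, hx, (PrimeSpectrum.topologicalKrullDim_eq_ringKrullDim B).trans_le hd⟩
  choose d B f hf hx hd using key
  obtain ⟨t, ht⟩ := isCompact_univ.elim_finite_subcover (fun x => Set.range (f x))
    (fun x => (f x).isOpenEmbedding.isOpen_range) fun x _ => Set.mem_iUnion.2 ⟨x, hx x⟩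
  refine ⟨t.sup d, Sites_dim_of_cover (X := U.obj.left) fun y => ?_⟩
  obtain ⟨x, hxt, hy⟩ := Set.mem_iUnion₂.1 (ht (Set.mem_univ y))
  refine ⟨Spec (B x), inferInstance, f x, (f x).isOpenEmbedding, hy, (hd x).trans ?_⟩
  exact_mod_cast Finset.le_sup (f := d) hxt

end Pool.Agent.KEW
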