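import Pool.Agent.P.MP_6277db_ag.KEW.L8b.Van
import Pool.Agent.P.MP_6277db_ag.KEW.L9.Final

noncomputable section

open CategoryTheory AlgebraicGeometry

namespace Pool.Agent.KEW

/-- The target theorem. -/
theorem main (A : Type) [CommRing A] [IsDomain A] [IsDiscreteValuationRing A]
    [HenselianLocalRing A] [PerfectField (IsLocalRing.ResidueField A)]
    (m : ℕ) (hm : (m : IsLocalRing.ResidueField A) ≠ 0)
    (E : Spt (ULift.{1} (ZMod m)) (big A)) (hE : IsMotCoh A m E)
    (X Y : Big A) (ι : Y ⟶ X) (hX : IsProj X.obj.hom) [IsClosedImmersion ι.hom.left]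
    (hY : Set.range ι.hom.left = X.obj.hom ⁻¹' {IsLocalRing.closedPoint A})
    (i : ℤ) (j : ℕ) (hj : topologicalKrullDim Y.obj.left ≤ j) :
    Function.Bijective (Coh.map E i j ι) :=
  main_of_van A m (van A m hm) E hE X Y ι hX hY i j hj

end Pool.Agent.KEW
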